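import Pool.Agent.H.MP_89b417_ag.Ring

set_option autoImplicit false
open HahnSeries

namespace Pool.Agent.H.MP_89b417_ag

structure IsDer {A : Type} [CommRing A] [Algebra ℂ A] (D : A → A) : Prop where
  add : ∀ a b, D (a + b) = D a + D b
  mul : ∀ a b, D (a * b) = a * D b + b * D a
  alg : ∀ a, D (algebraMap ℂ A a) = 0

theorem IsDer.zero {A : Type} [CommRing A] [Algebra ℂ A] {D : A → A} (h : IsDer D) : D 0 = 0 := by
  simpa using h.alg 0

theorem IsDer.pow {A : Type} [CommRing A] [Algebra ℂ A] {D : A → A} (h : IsDer D) (a : A) (n : ℕ) :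
    D (a ^ (n + 1)) = (n + 1) * a ^ n * D a := by
  induction n with
  | zero => simp
  | succ n ih => rw [pow_succ, h.mul, ih]; push_cast; ring

theorem IsDer.poly {A : Type} [CommRing A] [Algebra ℂ A] {D : A → A} (h : IsDer D) (a : A)
    (ha : D a = 0) (P : Polynomial ℂ) : D (Polynomial.aeval a P) = 0 := by
  induction P using Polynomial.induction_on with
  | C b => rw [Polynomial.aeval_C, h.alg]
  | add p q hp hq => rw [map_add, h.add, hp, hq, add_zero]
  | monomial n b hb => rw [pow_succ, ← mul_assoc, map_mul, Polynomial.aeval_X, h.mul, hb, ha]; simp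

theorem IsDer.rel {c : ℂ} {D : B c → B c} (h : IsDer D) :
    bx c ^ 2 * D (bY c) + bY c * (2 * bx c * D (bx c)) = 7 * bz c ^ 6 * D (bz c)
      + (bx c * (4 * bz c ^ 3 * D (bz c)) + bz c ^ 4 * D (bx c))
      + (bx c * (5 * bz c ^ 4 * D (bz c)) + bz c ^ 5 * D (bx c)) := by
  have := congrArg D (Pool.Agent.H.MP_89b417_ag.rel c)
  rw [h.add, h.add, h.add, h.mul, h.mul, h.mul, h.alg, h.pow _ 1, h.pow _ 6, h.pow _ 3, h.pow _ 4] at this
  push_cast at this
  linear_combination this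

def l1 (m : G) : ℂ := -(g2 m : ℂ)
def l2 (m : G) : ℂ := -(g1 m : ℂ)

theorem l1_add (m n : G) : l1 (m + n) = l1 m + l1 n := by simp [l1]; ring
theorem l2_add (m n : G) : l2 (m + n) = l2 m + l2 n := by simp [l2]; ring

theorem th_isDer (l : G → ℂ) (hl : ∀ m n, l (m + n) = l m + l n) : IsDer (th l) := by
  refine ⟨th_add l, th_mul l hl, fun a => ?_⟩
  have h0 : l 0 = 0 := by simpa using hl 0 0
  change th l (single 0 a) = 0
  rw [th_single, h0]; simp

theorem th1_x : th l1 kx = kx := by rw [kx, th_single]; simp [l1]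
theorem th1_z : th l1 kz = 0 := by rw [kz, th_single]; simp [l1]
theorem th2_x : th l2 kx = 0 := by rw [kx, th_single]; simp [l2]
theorem th2_z : th l2 kz = kz := by rw [kz, th_single]; simp [l2]

theorem th_rel (c : ℂ) {D : K → K} (h : IsDer D) :
    kx ^ 2 * D (ky c) + ky c * (2 * kx * D kx) = 7 * kz ^ 6 * D kz
      + (kx * (4 * kz ^ 3 * D kz) + kz ^ 4 * D kx)
      + (kx * (5 * kz ^ 4 * D kz) + kz ^ 5 * D kx) := by
  have := congrArg D (krel c)
  rw [h.add, h.add, h.add, h.mul, h.mul, h.mul, h.alg, h.pow _ 1, h.pow _ 6, h.pow _ 3, h.pow _ 4] at this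
  push_cast at this
  linear_combination this

theorem formula {c : ℂ} {D : B c → B c} (h : IsDer D) (f : B c) :
    io c (D f) = th l1 (io c f) * (io c (D (bx c)) * kxi) + th l2 (io c f) * (io c (D (bz c)) * kzi) := by
  have d1 := th_isDer l1 l1_add
  have d2 := th_isDer l2 l2_add
  have step : ∀ u f : B c, io c (D u) = th l1 (io c u) * (io c (D (bx c)) * kxi)
      + th l2 (io c u) * (io c (D (bz c)) * kzi) → io c (D f) = th l1 (io c f) * (io c (D (bx c)) * kxi)
      + th l2 (io c f) * (io c (D (bz c)) * kzi) → io c (D (f * u)) = th l1 (io c (f * u))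
      * (io c (D (bx c)) * kxi) + th l2 (io c (f * u)) * (io c (D (bz c)) * kzi) := by
    intro u f hu hf
    rw [h.mul, map_add, map_mul, map_mul, map_mul, hu, hf, d1.mul, d2.mul]; ring
  induction f using B_ind with
  | h0 a => rw [h.alg, AlgHom.commutes, d1.alg, d2.alg]; simp
  | h1 f u hf hu => rw [h.add, map_add, map_add, hf, hu, d1.add, d2.add]; ring
  | hx f hf =>
    refine step _ f ?_ hf
    rw [io_x, th1_x, th2_x]
    linear_combination (-io c (D (bx c))) * kx_inv
  | hz f hf =>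
    refine step _ f ?_ hf
    rw [io_z, th1_z, th2_z]
    linear_combination (-io c (D (bz c))) * kz_inv
  | hy f hf =>
    refine step _ f ?_ hf
    have r0 := congrArg (io c) h.rel
    have r1 := th_rel c d1
    have r2 := th_rel c d2
    rw [th1_x, th1_z] at r1
    rw [th2_x, th2_z] at r2
    simp only [map_add, map_mul, map_pow, io_x, io_y, io_z, map_ofNat] at r0
    rw [io_y]
    apply mul_left_cancel₀ (pow_ne_zero 2 top_x.ne_zero)
    linear_combination r0 - (io c (D (bx c)) * kxi) * r1 - (io c (D (bz c)) * kzi) * r2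
      + io c (D (bx c)) * (2 * ky c * kx - kz ^ 4 - kz ^ 5) * kx_inv
      - io c (D (bz c)) * (7 * kz ^ 6 + 4 * kx * kz ^ 3 + 5 * kx * kz ^ 4) * kz_inv

theorem exists_D (c : ℂ) (f : B c) : ∃ u : B c, io c u = th l2 (io c f) * (kx ^ 2 * kzi) := by
  have d2 := th_isDer l2 l2_add
  have step : ∀ u f : B c, (∃ v : B c, io c v = th l2 (io c u) * (kx ^ 2 * kzi)) →
      (∃ v : B c, io c v = th l2 (io c f) * (kx ^ 2 * kzi)) →
      ∃ v : B c, io c v = th l2 (io c (f * u)) * (kx ^ 2 * kzi) := by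
    rintro u f ⟨a, ha⟩ ⟨b, hb⟩
    exact ⟨f * a + u * b, by rw [map_add, map_mul, map_mul, map_mul, ha, hb, d2.mul]; ring⟩
  induction f using B_ind with
  | h0 a => exact ⟨0, by rw [AlgHom.commutes, d2.alg]; simp⟩
  | h1 f u hf hu =>
    obtain ⟨a, ha⟩ := hf
    obtain ⟨b, hb⟩ := hu
    exact ⟨a + b, by rw [map_add, map_add, ha, hb, d2.add]; ring⟩
  | hx f hf => exact step _ f ⟨0, by rw [io_x, th2_x]; simp⟩ hf
  | hz f hf =>
    refine step _ f ⟨bx c ^ 2, ?_⟩ hf
    rw [io_z, th2_z, map_pow, io_x]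
    linear_combination (-kx ^ 2) * kz_inv
  | hy f hf =>
    refine step _ f ⟨7 * bz c ^ 6 + 4 * bx c * bz c ^ 3 + 5 * bx c * bz c ^ 4, ?_⟩ hf
    have r2 := th_rel c d2
    rw [th2_x, th2_z] at r2
    simp only [map_add, map_mul, map_pow, io_x, io_y, io_z, map_ofNat]
    linear_combination (-kzi) * r2 - (7 * kz ^ 6 + 4 * kx * kz ^ 3 + 5 * kx * kz ^ 4) * kz_inv

noncomputable def DD (c : ℂ) (f : B c) : B c := (exists_D c f).choose

theorem io_DD (c : ℂ) (f : B c) : io c (DD c f) = th l2 (io c f) * (kx ^ 2 * kzi) :=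
  (exists_D c f).choose_spec

theorem DD_der (c : ℂ) : IsDer (DD c) := by
  have d2 := th_isDer l2 l2_add
  refine ⟨fun a b => io_inj c ?_, fun a b => io_inj c ?_, fun a => io_inj c ?_⟩
  · rw [map_add, io_DD, io_DD, io_DD, map_add, d2.add]; ring
  · rw [map_add, map_mul, map_mul, io_DD, io_DD, io_DD, map_mul, d2.mul]; ring
  · rw [io_DD, AlgHom.commutes, d2.alg]; simp

theorem DD_x (c : ℂ) : DD c (bx c) = 0 := io_inj c (by rw [io_DD, io_x, th2_x]; simp)

theorem DD_z (c : ℂ) : DD c (bz c) = bx c ^ 2 := io_inj c (by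
  rw [io_DD, io_z, th2_z, map_pow, io_x]
  linear_combination (kx ^ 2) * kz_inv)

theorem g1_dg (s : Ix) : g1 (dg s) ≤ 0 := by
  simp only [dg, g1_g]; omega

theorem DD_nil (c : ℂ) (f : B c) : ∃ n, (DD c)^[n] f = 0 := by
  by_cases hf : f = 0
  · exact ⟨0, hf⟩
  obtain ⟨m, hm⟩ := exists_top (f := io c f) (fun h => hf (io_inj c (by rw [h, map_zero])))
  have ht : Top (kx ^ 2 * kzi) (g 1 (-2)) := (top_x.pow 2).mul top_zi
  have key : ∀ n : ℕ, Ge (io c ((DD c)^[n] f)) (m + n • g 1 (-2)) := by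
    intro n
    induction n with
    | zero => simpa using hm.2
    | succ n ih =>
      rw [Function.iterate_succ_apply', io_DD, succ_nsmul, ← add_assoc]
      exact (ih.th l2).mul ht.2
  refine ⟨(-g1 m).toNat + 1, ?_⟩
  by_contra hne
  obtain ⟨m', hm'⟩ := exists_top (f := io c ((DD c)^[(-g1 m).toNat + 1] f))
    (fun h => hne (io_inj c (by rw [h, map_zero])))
  obtain ⟨s, rfl⟩ := top_mem hm'
  have h1 := g_le.mp (hm'.le (key _))
  have h2 := g1_dg s
  simp only [g1_add, g1_nsmul, g1_g] at h1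
  omega

/-- every locally nilpotent derivation kills `x` -/
theorem ml {c : ℂ} {D : B c → B c} (h : IsDer D) (hn : ∀ f, ∃ n, D^[n] f = 0) : D (bx c) = 0 := by
  by_contra hx
  set E1 := io c (D (bx c)) * kxi with hE1
  set E2 := io c (D (bz c)) * kzi with hE2
  obtain ⟨m1, hm1⟩ := exists_top (f := io c (D (bx c))) (fun e => hx (io_inj c (by rw [e, map_zero])))
  have t1 : Top E1 (m1 + g 0 1) := hm1.mul top_xi
  obtain ⟨δ, a1, a2, a3⟩ : ∃ δ, Ge E1 δ ∧ Ge E2 δ ∧ (E1.coeff δ ≠ 0 ∨ E2.coeff δ ≠ 0) := by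
    by_cases h2 : E2 = 0
    · exact ⟨_, t1.2, h2 ▸ Ge.zero _, Or.inl t1.1⟩
    · obtain ⟨m2, t2⟩ := exists_top h2
      rcases le_total (m1 + g 0 1) m2 with hh | hh
      · exact ⟨_, t1.2, t2.2.mono hh, Or.inl t1.1⟩
      · exact ⟨_, t1.2.mono hh, t2.2, Or.inr t2.1⟩
  set e1 := E1.coeff δ
  set e2 := E2.coeff δ
  let l : G → ℂ := fun m => l1 m * e1 + l2 m * e2
  have step : ∀ f m, Top (io c f) m → l m ≠ 0 → Top (io c (D f)) (m + δ) := by
    intro f m hf hl
    rw [formula h f]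
    refine ⟨?_, ((hf.2.th l1).mul a1).add ((hf.2.th l2).mul a2)⟩
    rw [coeff_add, (hf.2.th l1).coeff_mul a1, (hf.2.th l2).coeff_mul a2, th_coeff, th_coeff]
    have : l1 m * (io c f).coeff m * e1 + l2 m * (io c f).coeff m * e2 = (io c f).coeff m * l m := by
      simp only [l]; ring
    rw [this]
    exact mul_ne_zero hf.1 hl
  have nil : ∀ n f m, D^[n] f = 0 → Top (io c f) m →
      ∃ k : ℕ, l (m + k • δ) = 0 ∧ ∃ s, m + k • δ = dg s := by
    intro n
    induction n with
    | zero =>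
      intro f m h0 hf
      exact absurd (by rw [show f = 0 from h0, map_zero]) hf.ne_zero
    | succ n ih =>
      intro f m h0 hf
      by_cases hl : l m = 0
      · exact ⟨0, by simpa using hl, by simpa using top_mem hf⟩
      · obtain ⟨k, hk⟩ := ih (D f) (m + δ) h0 (step f m hf hl)
        refine ⟨k + 1, ?_⟩
        rwa [succ_nsmul', ← add_assoc]
  have nil' : ∀ f m, Top (io c f) m → ∃ k : ℕ, l (m + k • δ) = 0 ∧ ∃ s, m + k • δ = dg s := by
    intro f m hf
    obtain ⟨n, hn⟩ := hn f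
    exact nil n f m hn hf
  obtain ⟨p, hp, ⟨i1, k1, j1⟩, hs1⟩ := nil' (bx c) _ (by rw [io_x]; exact top_x)
  obtain ⟨q, hq, ⟨i2, k2, j2⟩, hs2⟩ := nil' (bz c) _ (by rw [io_z]; exact top_z)
  obtain ⟨r, hr, -⟩ := nil' (bY c) _ (by rw [io_y]; exact top_y c)
  set u := g1 δ with hu
  set v := g2 δ with hv
  simp only [l, l1, l2, g1_add, g2_add, g1_nsmul, g2_nsmul, g1_g, g2_g, ← hu, ← hv] at hp hq hr
  push_cast at hp hq hr
  set t : ℂ := v * e1 + u * e2 with ht
  have b1 : e1 = p * t := by rw [ht]; linear_combination hp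
  have b2 : e2 = q * t := by rw [ht]; linear_combination hq
  have ht0 : t ≠ 0 := by
    intro h0
    rw [h0, mul_zero] at b1 b2
    tauto
  have b3 : (v : ℤ) * p + u * q = 1 := by
    have : ((v * p + u * q : ℤ) : ℂ) = 1 := by
      push_cast
      apply mul_left_cancel₀ ht0
      linear_combination -ht - v * b1 - u * b2
    exact_mod_cast this
  have b4 : (7 * q : ℤ) = 2 * p + r := by
    have : ((7 * q : ℤ) : ℂ) = ((2 * p + r : ℤ) : ℂ) := by
      push_cast
      apply mul_left_cancel₀ ht0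
      linear_combination hr + r * ht + 2 * b1 - 7 * b2
    exact_mod_cast this
  have c1 := congrArg g1 hs1
  have c2 := congrArg g2 hs1
  have c3 := congrArg g1 hs2
  have c4 := congrArg g2 hs2
  simp only [dg, g1_add, g2_add, g1_nsmul, g2_nsmul, g1_g, g2_g, ← hu, ← hv] at c1 c2 c3 c4
  by_cases hp0 : p = 0
  · subst hp0
    have hu1 : u = 1 := by
      have : u * q = 1 := by simpa using b3
      rcases Int.eq_one_or_neg_one_of_mul_eq_one' this with h | h
      · exact h.1
      · omega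
    obtain ⟨s, rfl⟩ := top_mem hm1
    have h1 := g_le.mp (t1.le a1)
    have h2 := g1_dg s
    simp only [g1_add, g1_g] at h1
    omega
  have hq0 : q ≠ 0 := by omega
  have f1 : (i1 : ℤ) * p + (j1 : ℕ) * q + k1 * r = 0 := by
    linear_combination (q : ℤ) * c1 + p * c2 - p * b3 - k1 * b4
  have f2 : (i2 : ℤ) * p + (j2 : ℕ) * q + k2 * r = 0 := by
    linear_combination (q : ℤ) * c3 + p * c4 - q * b3 - k2 * b4
  have f1' : i1 * p + j1 * q + k1 * r = 0 := by exact_mod_cast f1
  have f2' : i2 * p + j2 * q + k2 * r = 0 := by exact_mod_cast f2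
  simp only [Nat.add_eq_zero_iff, Nat.mul_eq_zero, hp0, hq0, or_false] at f1' f2'
  by_cases hr0 : r = 0
  · subst hr0
    have hl : l (g (-1) 0) ≠ 0 := by
      simp only [l, l1, l2, g1_g, g2_g, b2]
      simpa using ⟨hq0, ht0⟩
    obtain ⟨⟨i, k, j⟩, hs⟩ := top_mem (step (bz c) _ (by rw [io_z]; exact top_z) hl)
    have c5 := congrArg g1 hs
    have c6 := congrArg g2 hs
    simp only [dg, g1_add, g2_add, g1_g, g2_g, ← hu, ← hv] at c5 c6
    obtain ⟨w, hw⟩ : ∃ w : ℤ, (q : ℤ) = 2 * w := ⟨p - 3 * q, by omega⟩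
    have hw' : (p : ℤ) = 7 * w := by omega
    have : w * (7 * v + 2 * u) = 1 := by rw [hw, hw'] at b3; linear_combination b3
    have hw1 : w = 1 := by
      rcases Int.eq_one_or_neg_one_of_mul_eq_one' this with h | h
      · exact h.1
      · omega
    subst hw1
    omega
  · simp only [hr0, or_false] at f1' f2'
    obtain ⟨⟨x1, x2⟩, x3⟩ := f1'
    obtain ⟨⟨y1, y2⟩, y3⟩ := f2'
    rw [x2, x3] at c1
    rw [y2, y3] at c3
    have : u = 0 := by
      have : (p : ℤ) * u = 0 := by simpa using c1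
      rcases mul_eq_zero.mp this with h | h
      · omega
      · exact h
    rw [this] at c3
    simp at c3

end Pool.Agent.H.MP_89b417_ag
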