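import Mathlib

set_option autoImplicit false
open HahnSeries

namespace Pool.Agent.H.MP_89b417_ag

abbrev G : Type := ℤ ×ₗ ℤ
abbrev K : Type := HahnSeries G ℂ

def g (a b : ℤ) : G := toLex (a, b)
def g1 (m : G) : ℤ := (ofLex m).1
def g2 (m : G) : ℤ := (ofLex m).2

@[simp] theorem g1_g (a b : ℤ) : g1 (g a b) = a := rfl
@[simp] theorem g2_g (a b : ℤ) : g2 (g a b) = b := rfl
@[simp] theorem g1_add (m n : G) : g1 (m + n) = g1 m + g1 n := rfl
@[simp] theorem g2_add (m n : G) : g2 (m + n) = g2 m + g2 n := rfl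
@[simp] theorem g1_zero : g1 0 = 0 := rfl
@[simp] theorem g2_zero : g2 0 = 0 := rfl
@[simp] theorem g1_nsmul (k : ℕ) (m : G) : g1 (k • m) = k * g1 m := by
  induction k with
  | zero => simp
  | succ k ih => rw [succ_nsmul, g1_add, ih]; push_cast; ring
@[simp] theorem g2_nsmul (k : ℕ) (m : G) : g2 (k • m) = k * g2 m := by
  induction k with
  | zero => simp
  | succ k ih => rw [succ_nsmul, g2_add, ih]; push_cast; ring
theorem g_ext {m n : G} (h1 : g1 m = g1 n) (h2 : g2 m = g2 n) : m = n := Prod.ext h1 h2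
theorem g_le {m n : G} : m ≤ n ↔ g1 m < g1 n ∨ g1 m = g1 n ∧ g2 m ≤ g2 n := Prod.Lex.le_iff
theorem g_lt {m n : G} : m < n ↔ g1 m < g1 n ∨ g1 m = g1 n ∧ g2 m < g2 n := Prod.Lex.lt_iff
theorem g_add (a b c d : ℤ) : g a b + g c d = g (a + c) (b + d) := rfl

/-- weighted Euler operator -/
noncomputable def th (l : G → ℂ) (f : K) : K where
  coeff m := l m * f.coeff m
  isPWO_support' := f.isPWO_support.mono fun m hm h => hm (by simp [h])

@[simp] theorem th_coeff (l : G → ℂ) (f : K) (m : G) : (th l f).coeff m = l m * f.coeff m := rfl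

theorem th_add (l : G → ℂ) (f h : K) : th l (f + h) = th l f + th l h := by
  ext m; simp [mul_add]

theorem th_sub (l : G → ℂ) (f h : K) : th l (f - h) = th l f - th l h := by
  ext m; simp [mul_sub]

theorem th_single (l : G → ℂ) (m : G) (a : ℂ) : th l (single m a) = single m (l m * a) := by
  ext n
  simp only [th_coeff, coeff_single]
  split_ifs with h
  · rw [h]
  · simp

theorem th_mul (l : G → ℂ) (hl : ∀ m n, l (m + n) = l m + l n) (f h : K) :
    th l (f * h) = f * th l h + h * th l f := by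
  ext m
  have s1 : (th l h).support ⊆ h.support := fun m hm h => hm (by simp [h])
  have s2 : (th l f).support ⊆ f.support := fun m hm h => hm (by simp [h])
  rw [coeff_add, mul_comm h, coeff_mul_right' h.isPWO_support s1, coeff_mul_left' f.isPWO_support s2,
    th_coeff, coeff_mul, Finset.mul_sum, ← Finset.sum_add_distrib]
  refine Finset.sum_congr rfl fun ij hij => ?_
  rw [Finset.mem_antidiagonal] at hij
  rw [← hij.2.2, hl, th_coeff, th_coeff]; ring

def Ge (f : K) (m : G) : Prop := ∀ n, n < m → f.coeff n = 0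

def Top (f : K) (m : G) : Prop := f.coeff m ≠ 0 ∧ Ge f m

theorem Ge.mono {f : K} {m n : G} (h : Ge f m) (hn : n ≤ m) : Ge f n :=
  fun k hk => h k (hk.trans_le hn)

theorem Ge.add {f h : K} {m : G} (h1 : Ge f m) (h2 : Ge h m) : Ge (f + h) m :=
  fun k hk => by rw [coeff_add, h1 k hk, h2 k hk, add_zero]

theorem Ge.th {f : K} {m : G} (h1 : Ge f m) (l : G → ℂ) : Ge (th l f) m :=
  fun k hk => by rw [th_coeff, h1 k hk, mul_zero]

theorem Ge.zero (m : G) : Ge 0 m := fun _ _ => rfl

theorem ge_single (m : G) (a : ℂ) : Ge (single m a) m :=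
  fun _ hk => coeff_single_of_ne hk.ne

theorem Ge.mul {f h : K} {m n : G} (h1 : Ge f m) (h2 : Ge h n) : Ge (f * h) (m + n) := by
  intro k hk
  rw [coeff_mul]
  refine Finset.sum_eq_zero fun ij hij => ?_
  rw [Finset.mem_antidiagonal] at hij
  exfalso
  have a1 : m ≤ ij.1 := not_lt.mp fun hh => hij.1 (h1 _ hh)
  have a2 : n ≤ ij.2 := not_lt.mp fun hh => hij.2.1 (h2 _ hh)
  exact absurd (add_le_add a1 a2) (by rw [hij.2.2]; exact not_le.mpr hk)

theorem Ge.coeff_mul {f h : K} {m n : G} (h1 : Ge f m) (h2 : Ge h n) :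
    (f * h).coeff (m + n) = f.coeff m * h.coeff n := by
  rw [HahnSeries.coeff_mul, Finset.sum_eq_single (m, n)]
  · intro ij hij hne
    rw [Finset.mem_antidiagonal] at hij
    exfalso
    have a1 : m ≤ ij.1 := not_lt.mp fun hh => hij.1 (h1 _ hh)
    have a2 : n ≤ ij.2 := not_lt.mp fun hh => hij.2.1 (h2 _ hh)
    rcases a1.eq_or_lt with e1 | e1
    · rcases a2.eq_or_lt with e2 | e2
      · exact hne (Prod.ext e1.symm e2.symm)
      · exact absurd hij.2.2 (add_lt_add_of_le_of_lt a1 e2).ne'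
    · exact absurd hij.2.2 (add_lt_add_of_lt_of_le e1 a2).ne'
  · intro hn
    rw [Finset.mem_antidiagonal] at hn
    by_contra hc
    exact hn ⟨left_ne_zero_of_mul hc, right_ne_zero_of_mul hc, rfl⟩

theorem Top.mul {f h : K} {m n : G} (h1 : Top f m) (h2 : Top h n) : Top (f * h) (m + n) :=
  ⟨by rw [h1.2.coeff_mul h2.2]; exact mul_ne_zero h1.1 h2.1, h1.2.mul h2.2⟩

theorem top_single (m : G) {a : ℂ} (ha : a ≠ 0) : Top (single m a) m :=
  ⟨by simpa using ha, ge_single m a⟩

theorem top_one : Top 1 0 := top_single 0 one_ne_zero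

theorem Top.pow {f : K} {m : G} (h1 : Top f m) (k : ℕ) : Top (f ^ k) (k • m) := by
  induction k with
  | zero => simpa using top_one
  | succ k ih => rw [pow_succ, succ_nsmul]; exact ih.mul h1

theorem Top.add {f h : K} {m n : G} (h1 : Top f m) (h2 : Ge h n) (hmn : m < n) : Top (f + h) m :=
  ⟨by rw [coeff_add, h2 m hmn, add_zero]; exact h1.1, h1.2.add (h2.mono hmn.le)⟩

theorem exists_top {f : K} (hf : f ≠ 0) : ∃ m, Top f m :=
  ⟨f.order, fun h => hf (coeff_order_eq_zero.mp h), fun _ hk => coeff_eq_zero_of_lt_order hk⟩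

theorem Top.ne_zero {f : K} {m : G} (h : Top f m) : f ≠ 0 := by
  rintro rfl
  exact h.1 rfl

theorem Top.le {f : K} {m n : G} (h : Top f m) (h' : Ge f n) : n ≤ m :=
  not_lt.mp fun hh => h.1 (h' _ hh)

theorem Top.unique {f : K} {m n : G} (h : Top f m) (h' : Top f n) : m = n :=
  le_antisymm (h'.le h.2) (h.le h'.2)

/-- a finite combination of elements with distinct orders -/
theorem top_sum {ι : Type} (u : ι → K) (d : ι → G) (hd : Function.Injective d)
    (hu : ∀ s, Top (u s) (d s)) (w : ι →₀ ℂ) (hw : w ≠ 0) :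
    ∃ s ∈ w.support, Top (w.sum fun s a => a • u s) (d s) ∧ ∀ t ∈ w.support, d s ≤ d t := by
  obtain ⟨s, hs, hmin⟩ := w.support.exists_min_image d (Finsupp.support_nonempty_iff.mpr hw)
  refine ⟨s, hs, ⟨?_, ?_⟩, hmin⟩
  · rw [Finsupp.sum, coeff_sum, Finset.sum_eq_single s]
    · rw [coeff_smul, smul_eq_mul]
      exact mul_ne_zero (Finsupp.mem_support_iff.mp hs) (hu s).1
    · intro t ht hne
      rw [coeff_smul, (hu t).2 _ (lt_of_le_of_ne (hmin t ht) fun h => hne (hd h).symm), smul_zero]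
    · intro h; exact absurd hs h
  · intro k hk
    rw [Finsupp.sum, coeff_sum]
    refine Finset.sum_eq_zero fun t ht => ?_
    rw [coeff_smul, (hu t).2 _ (hk.trans_le (hmin t ht)), smul_zero]

end Pool.Agent.H.MP_89b417_ag
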