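import Pool.Agent.H.MP_89b417_ag.Der

set_option autoImplicit false
open Polynomial
open HahnSeries (single single_pow coeff_single_of_ne)

namespace Pool.Agent.H.MP_89b417_ag

theorem transport {c d : ℂ} (σ : B c ≃ₐ[ℂ] B d) :
    IsDer (fun f => σ.symm (DD d (σ f))) ∧ ∀ f, ∃ n, (fun f => σ.symm (DD d (σ f)))^[n] f = 0 := by
  have h := DD_der d
  refine ⟨⟨fun a b => by simp [h.add], fun a b => by simp [h.mul], fun a => by simp [h.alg]⟩, ?_⟩
  intro f
  obtain ⟨n, hn⟩ := DD_nil d (σ f)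
  refine ⟨n, ?_⟩
  have : ∀ n f, (fun f => σ.symm (DD d (σ f)))^[n] f = σ.symm ((DD d)^[n] (σ f)) := by
    intro n
    induction n with
    | zero => simp
    | succ n ih => intro f; rw [Function.iterate_succ_apply, ih, Function.iterate_succ_apply]; simp
  rw [this, hn, map_zero]

theorem map_x {c d : ℂ} (σ : B c ≃ₐ[ℂ] B d) : ∃ P : ℂ[X], σ (bx c) = aeval (bx d) P := by
  have h1 := ml (transport σ).1 (transport σ).2
  have h2 : DD d (σ (bx c)) = 0 := by simpa using h1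
  have h3 := io_DD d (σ (bx c))
  rw [h2, map_zero] at h3
  have h4 : th l2 (io d (σ (bx c))) = 0 :=
    (mul_eq_zero.mp h3.symm).resolve_right ((top_x.pow 2).mul top_zi).ne_zero
  obtain ⟨P, hP⟩ := small (σ (bx c)) 0 (by norm_num) (by
    intro m hm
    have := congrArg (fun f : K => f.coeff m) h4
    simp only [th_coeff, HahnSeries.coeff_zero, mul_eq_zero, hm.1, or_false, l2, neg_eq_zero,
      Int.cast_eq_zero] at this
    simp [this])
  exact ⟨P 0, by simpa using hP⟩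

theorem bx_ne (c : ℂ) : bx c ≠ 0 := fun h => top_x.ne_zero (by rw [← io_x c, h, map_zero])

theorem map_z {c d : ℂ} (σ : B c ≃ₐ[ℂ] B d) :
    ∃ α β : ℂ[X], σ (bz c) = aeval (bx d) α * bz d + aeval (bx d) β := by
  obtain ⟨h1, h2⟩ := transport σ.symm
  have h3 := ml h1 h2
  have h4 := formula h1 (σ (bz c))
  simp only [AlgEquiv.symm_symm, AlgEquiv.symm_apply_apply] at h3 h4
  rw [h3, DD_z, map_zero, zero_mul, mul_zero, zero_add] at h4
  obtain ⟨P, hP⟩ := map_x σ
  have hx0 : io d (σ (bx c)) ≠ 0 := fun h => bx_ne c (σ.injective (io_inj d (by simpa using h)))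
  obtain ⟨m0, hm0⟩ := exists_top hx0
  have hm0' : 0 ≤ g1 m0 := by
    have k1 := io_DD d (σ (bx c))
    rw [hP, (DD_der d).poly _ (DD_x d), map_zero, ← hP] at k1
    have k2 : th l2 (io d (σ (bx c))) = 0 :=
      (mul_eq_zero.mp k1.symm).resolve_right ((top_x.pow 2).mul top_zi).ne_zero
    have := congrArg (fun f : K => f.coeff m0) k2
    simp only [th_coeff, HahnSeries.coeff_zero, mul_eq_zero, hm0.1, or_false, l2, neg_eq_zero,
      Int.cast_eq_zero] at this
    omega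
  have t0 := hm0.pow 2
  rw [← map_pow, ← map_pow, h4] at t0
  obtain ⟨Q, hQ⟩ := small (σ (bz c)) 1 (by norm_num) (by
    intro m hm
    by_contra hlt
    have t1 : Top (th l2 (io d (σ (bz c)))) m := by
      refine ⟨?_, hm.2.th l2⟩
      rw [th_coeff]
      refine mul_ne_zero ?_ hm.1
      simp only [l2, ne_eq, neg_eq_zero, Int.cast_eq_zero]
      omega
    obtain ⟨m1, hm1⟩ := exists_top (left_ne_zero_of_mul (right_ne_zero_of_mul t0.ne_zero))
    have t2 := (t1.mul (hm1.mul top_zi)).unique t0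
    obtain ⟨s, rfl⟩ := top_mem hm1
    have := congrArg g1 t2
    have h5 := g1_dg s
    simp only [g1_add, g1_nsmul, g1_g] at this
    omega)
  exact ⟨Q 1, Q 0, by rw [hQ]; simp [Finset.sum_range_succ]; ring⟩

noncomputable def ev (c : ℂ) : ℂ[X][X] →+* B c :=
  eval₂RingHom (aeval (bx c) : ℂ[X] →ₐ[ℂ] B c).toRingHom (bz c)

@[simp] theorem ev_C (c : ℂ) (P : ℂ[X]) : ev c (C P) = aeval (bx c) P := by simp [ev]
@[simp] theorem ev_X (c : ℂ) : ev c X = bz c := by simp [ev]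

theorem top_poly (P : ℂ[X]) (hP : P ≠ 0) : Top (aeval kx P) (g 0 (-P.natDegree)) := by
  have key : ∀ n : ℕ, ∀ P : ℂ[X], P.natDegree ≤ n → Ge (aeval kx P) (g 0 (-n)) ∧
      (aeval kx P).coeff (g 0 (-n)) = P.coeff n := by
    intro n P hn
    have e : ∀ i : ℕ, kx ^ i = single (g 0 (-i)) 1 := by
      intro i
      rw [kx, single_pow, one_pow]
      have : i • g 0 (-1) = g 0 (-i) := by
        apply g_ext <;> simp only [g1_nsmul, g2_nsmul, g1_g, g2_g] <;> ring
      rw [this]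
    rw [aeval_eq_sum_range' (Nat.lt_succ_of_le hn)]
    constructor
    · intro k hk
      rw [HahnSeries.coeff_sum]
      refine Finset.sum_eq_zero fun i hi => ?_
      rw [HahnSeries.coeff_smul, e, coeff_single_of_ne, smul_zero]
      rintro rfl
      have := g_lt.mp hk
      simp only [g1_g, g2_g, Finset.mem_range] at this hi
      omega
    · rw [HahnSeries.coeff_sum, Finset.sum_eq_single n]
      · rw [HahnSeries.coeff_smul, e]; simp
      · intro i _ hi
        rw [HahnSeries.coeff_smul, e, coeff_single_of_ne, smul_zero]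
        intro h
        have := congrArg g2 h
        simp only [g2_g] at this
        omega
      · intro h; simp at h
  obtain ⟨h1, h2⟩ := key _ P le_rfl
  exact ⟨by rw [h2]; exact leadingCoeff_ne_zero.mpr hP, h1⟩

theorem ev_inj (c : ℂ) : Function.Injective (ev c) := by
  rw [injective_iff_map_eq_zero]
  intro F hF
  by_contra h0
  have h1 : io c (ev c F) = ∑ j ∈ Finset.range (F.natDegree + 1), aeval kx (F.coeff j) * kz ^ j := by
    conv_lhs => rw [F.as_sum_range_C_mul_X_pow]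
    simp only [map_sum, map_mul, map_pow, ev_C, ev_X, io_z]
    refine Finset.sum_congr rfl fun j _ => ?_
    rw [← aeval_algHom_apply, io_x]
  rw [hF, map_zero, Finset.sum_range_succ, add_comm] at h1
  have t1 := (top_poly _ (leadingCoeff_ne_zero.mpr h0)).mul (top_z.pow F.natDegree)
  have h2 := congrArg (fun f : K => f.coeff (g 0 (-F.leadingCoeff.natDegree)
    + F.natDegree • g (-1) 0)) h1
  simp only [HahnSeries.coeff_zero, HahnSeries.coeff_add, HahnSeries.coeff_sum] at h2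
  rw [Finset.sum_eq_zero, add_zero] at h2
  · exact t1.1 h2.symm
  · intro j hj
    by_cases hz : F.coeff j = 0
    · simp [hz]
    refine ((top_poly _ hz).mul (top_z.pow j)).2 _ (g_lt.mpr ?_)
    simp only [g1_add, g1_nsmul, g1_g, Finset.mem_range] at hj ⊢
    omega

theorem coef8 (a0 a1 a2 a3 a4 a5 a6 a7 : ℂ) (h : ∀ z : ℂ, a0 + a1 * z + a2 * z ^ 2 + a3 * z ^ 3
    + a4 * z ^ 4 + a5 * z ^ 5 + a6 * z ^ 6 + a7 * z ^ 7 = 0) :
    a0 = 0 ∧ a4 = 0 ∧ a5 = 0 ∧ a6 = 0 ∧ a7 = 0 := by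
  have h1 : (C a0 + C a1 * X + C a2 * X ^ 2 + C a3 * X ^ 3 + C a4 * X ^ 4 + C a5 * X ^ 5
      + C a6 * X ^ 6 + C a7 * X ^ 7 : ℂ[X]) = 0 := Polynomial.funext fun z => by simpa using h z
  refine ⟨?_, ?_, ?_, ?_, ?_⟩
  · simpa [coeff_X, coeff_C] using congrArg (fun q => q.coeff 0) h1
  · simpa [coeff_X, coeff_C] using congrArg (fun q => q.coeff 4) h1
  · simpa [coeff_X, coeff_C] using congrArg (fun q => q.coeff 5) h1
  · simpa [coeff_X, coeff_C] using congrArg (fun q => q.coeff 6) h1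
  · simpa [coeff_X, coeff_C] using congrArg (fun q => q.coeff 7) h1

theorem iso_eq {c d : ℂ} (σ : B c ≃ₐ[ℂ] B d) : c = d := by
  obtain ⟨P, hP⟩ := map_x σ
  obtain ⟨Q, hQ⟩ := map_x σ.symm
  obtain ⟨α, β, hz⟩ := map_z σ
  obtain ⟨α', β', hz'⟩ := map_z σ.symm
  have hcomp : ∀ T : ℂ[X], σ (aeval (bx c) T) = aeval (bx d) (T.comp P) := by
    intro T
    rw [aeval_comp, ← hP, aeval_algHom_apply]
  have e1 : Q.comp P = X := by
    apply C_injective
    apply ev_inj d
    rw [ev_C, ev_C, ← hcomp, ← hQ]; simp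
  have hP1 : P.natDegree = 1 := by
    have h2 := natDegree_comp (p := Q) (q := P)
    rw [e1, natDegree_X] at h2
    exact Nat.eq_one_of_mul_eq_one_left h2.symm
  have e2 : C (α'.comp P) * (C α * X + C β) + C (β'.comp P) = X := by
    apply ev_inj d
    simp only [map_add, map_mul, ev_C, ev_X]
    rw [← hz, ← hcomp, ← hcomp, ← map_mul, ← map_add, ← hz']; simp
  have e3 : α'.comp P * α = 1 := by
    have := congrArg (fun F => F.coeff 1) e2
    simpa [mul_add, ← mul_assoc, ← map_mul, coeff_C] using this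
  obtain ⟨a, ha, rfl⟩ := Polynomial.isUnit_iff.mp (IsUnit.of_mul_eq_one_right _ e3)
  have ha0 : a ≠ 0 := ha.ne_zero
  have hP0 : P ≠ 0 := by rintro rfl; simp at hP1
  have tP : Top (io d (σ (bx c))) (g 0 (-1)) := by
    have := top_poly P hP0
    rw [hP1] at this
    rwa [hP, ← aeval_algHom_apply, io_x]
  have geP : ∀ T : ℂ[X], Ge (aeval kx T) (g 0 (-T.natDegree)) := by
    intro T
    by_cases hT : T = 0
    · rw [hT, map_zero]; exact Ge.zero _
    · exact (top_poly T hT).2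
  have tZ : Top (io d (σ (bz c))) (g (-1) 0) := by
    rw [hz, map_add, map_mul, ← aeval_algHom_apply, ← aeval_algHom_apply, io_x, io_z]
    have := (top_poly (C a) (by simpa using ha0)).mul top_z
    rw [natDegree_C] at this
    exact Top.add this (geP β) (g_lt.mpr (by simp))
  have hrel := congrArg σ (rel c)
  simp only [map_add, map_mul, map_pow, AlgEquiv.commutes] at hrel
  have tY : Top (io d (σ (bY c))) (g (-7) 2) := by
    have h1 := (((tZ.pow 7).add (ge_alg c) (by decide)).add (tP.mul (tZ.pow 4)).2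
      (by decide)).add (tP.mul (tZ.pow 5)).2 (by decide)
    have h2 := congrArg (io d) hrel
    simp only [map_add, map_mul, map_pow, AlgHom.commutes] at h2
    rw [← h2] at h1
    obtain ⟨m, hm⟩ := exists_top (right_ne_zero_of_mul h1.ne_zero)
    have h3 := ((tP.pow 2).mul hm).unique h1
    have : m = g (-7) 2 := by
      have a1 := congrArg g1 h3
      have a2 := congrArg g2 h3
      simp only [g1_add, g2_add, g1_nsmul, g2_nsmul, g1_g, g2_g] at a1 a2
      apply g_ext <;> simp only [g1_g, g2_g] <;> omega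
    rwa [this] at hm
  obtain ⟨κ, W, hκ, hW⟩ := small_y _ tY
  set Wp : ℂ[X][X] := ∑ j ∈ Finset.range 7, C (W j) * X ^ j with hWp
  have hW' : ev d Wp = ∑ j ∈ Finset.range 7, aeval (bx d) (W j) * bz d ^ j := by
    simp [hWp, map_sum]
  have E : C P ^ 2 * (C (C κ) * (X ^ 7 + C (C d) + C X * X ^ 4 + C X * X ^ 5) + C X ^ 2 * Wp)
      = C X ^ 2 * ((C (C a) * X + C β) ^ 7 + C (C c) + C P * (C (C a) * X + C β) ^ 4
        + C P * (C (C a) * X + C β) ^ 5) := by
    apply ev_inj d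
    simp only [map_add, map_mul, map_pow, ev_C, ev_X, hW', aeval_X]
    rw [← hP, ← hz, aeval_C, aeval_C, aeval_C, ← rel d, ← hrel, hW, Algebra.smul_def]
    ring
  have hP2 := eq_X_add_C_of_natDegree_le_one hP1.le
  set lam := P.coeff 1 with hlam
  set mu := P.coeff 0 with hmu
  have E0 : ∀ z : ℂ, mu ^ 2 * (κ * (z ^ 7 + d)) = 0 := by
    intro z
    have := congrArg (fun F => (F.eval (C z)).eval 0) E
    simpa [← coeff_zero_eq_eval_zero, ← hmu] using this
  have hmu0 : mu = 0 := by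
    by_contra hne
    have a0 := E0 0
    have a1 := E0 1
    simp [hne, hκ] at a0 a1
    rw [a0] at a1
    simp at a1
  rw [hmu0, map_zero, add_zero] at hP2
  have E' : C (C lam) ^ 2 * (C (C κ) * (X ^ 7 + C (C d) + C X * X ^ 4 + C X * X ^ 5) + C X ^ 2 * Wp)
      = ((C (C a) * X + C β) ^ 7 + C (C c) + C (C lam) * C X * (C (C a) * X + C β) ^ 4
        + C (C lam) * C X * (C (C a) * X + C β) ^ 5) := by
    apply mul_left_cancel₀ (pow_ne_zero 2 (C_ne_zero.mpr (X_ne_zero (R := ℂ))))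
    rw [hP2, map_mul] at E
    linear_combination E
  set b0 := β.eval 0
  set b1 := β.derivative.eval 0
  have F0 : ∀ z : ℂ, lam ^ 2 * (κ * (z ^ 7 + d)) = (a * z + b0) ^ 7 + c := by
    intro z
    have := congrArg (fun F => (F.eval (C z)).eval 0) E'
    simpa using this
  have F1 : ∀ z : ℂ, lam ^ 2 * (κ * (z ^ 4 + z ^ 5)) = 7 * (a * z + b0) ^ 6 * b1
      + lam * (a * z + b0) ^ 4 + lam * (a * z + b0) ^ 5 := by
    intro z
    have := congrArg (fun F => (F.eval (C z)).derivative.eval 0) E'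
    simp [derivative_pow] at this
    linear_combination this
  obtain ⟨u0, -, -, u6, u7⟩ := coef8 (b0 ^ 7 + c - lam ^ 2 * κ * d) (7 * a * b0 ^ 6)
    (21 * a ^ 2 * b0 ^ 5) (35 * a ^ 3 * b0 ^ 4) (35 * a ^ 4 * b0 ^ 3) (21 * a ^ 5 * b0 ^ 2)
    (7 * a ^ 6 * b0) (a ^ 7 - lam ^ 2 * κ) fun z => by linear_combination -F0 z
  have hb0 : b0 = 0 := by simpa [ha0] using u6
  rw [hb0] at F1 u0
  obtain ⟨-, v4, v5, -, -⟩ := coef8 0 0 0 0 (lam * a ^ 4 - lam ^ 2 * κ) (lam * a ^ 5 - lam ^ 2 * κ)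
    (7 * a ^ 6 * b1) 0 fun z => by linear_combination -F1 z
  have ha1 : a = 1 := by
    apply mul_left_cancel₀ (pow_ne_zero 7 ha0)
    linear_combination (a - 1) * u7 - (a - 1) * v4 + v5 - v4
  rw [ha1] at u7
  linear_combination u0 - d * u7

abbrev V : Type := Fin 3 → ℂ

theorem eval_pp (v : V) :
    MvPolynomial.eval v pp = v 0 ^ 2 * v 1 - v 2 ^ 7 - v 0 * v 2 ^ 4 - v 0 * v 2 ^ 5 := by
  simp [pp]

theorem bound (x y z : ℂ) (h : x ^ 2 * y - z ^ 7 - x * z ^ 4 - x * z ^ 5 = 0) (hz : ‖z‖ ≤ 1) :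
    ‖z ^ 5 / x‖ ^ 2 ≤ 16 * ‖z‖ ^ 4 + 2 * ‖y‖ * ‖z‖ ^ 3 := by
  by_cases hx : x = 0
  · rw [hx]; simp; positivity
  have hx' : 0 < ‖x‖ := norm_pos_iff.mpr hx
  rw [norm_div, norm_pow, div_pow, div_le_iff₀ (by positivity)]
  have hz0 := norm_nonneg z
  have hy0 := norm_nonneg y
  rcases le_total (‖z‖ ^ 3) (4 * ‖x‖) with h1 | h1
  · have h2 : (‖z‖ ^ 3) ^ 2 ≤ (4 * ‖x‖) ^ 2 := by gcongr
    have h3 : 0 ≤ 2 * ‖y‖ * ‖z‖ ^ 3 * ‖x‖ ^ 2 := by positivity
    have h4 : ‖z‖ ^ 4 * (‖z‖ ^ 3) ^ 2 ≤ ‖z‖ ^ 4 * (4 * ‖x‖) ^ 2 := by gcongr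
    nlinarith
  · have e : z ^ 7 = x ^ 2 * y - x * z ^ 4 - x * z ^ 5 := by linear_combination -h
    have h2 : ‖z‖ ^ 7 ≤ ‖x‖ ^ 2 * ‖y‖ + ‖x‖ * ‖z‖ ^ 4 + ‖x‖ * ‖z‖ ^ 5 := by
      rw [← norm_pow, e]
      refine (norm_sub_le _ _).trans (add_le_add ((norm_sub_le _ _).trans ?_) ?_) <;> simp
    have h3 : ‖z‖ ^ 5 ≤ ‖z‖ ^ 4 := pow_le_pow_of_le_one hz0 hz (by norm_num)
    have h4 : ‖x‖ * ‖z‖ ^ 5 ≤ ‖x‖ * ‖z‖ ^ 4 := by gcongr
    have h5 : 4 * ‖x‖ * ‖z‖ ^ 4 ≤ ‖z‖ ^ 3 * ‖z‖ ^ 4 := by gcongr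
    have h6 : ‖z‖ ^ 7 ≤ 2 * ‖x‖ ^ 2 * ‖y‖ := by nlinarith
    have h7 : ‖z‖ ^ 3 * ‖z‖ ^ 7 ≤ ‖z‖ ^ 3 * (2 * ‖x‖ ^ 2 * ‖y‖) := by gcongr
    have h8 : 0 ≤ 16 * ‖z‖ ^ 4 * ‖x‖ ^ 2 := by positivity
    nlinarith

abbrev Z : Type := ↥({x : Fin 3 → ℂ | MvPolynomial.eval x pp = 0} : Set (Fin 3 → ℂ))

theorem Z_eq (v : Z) : v.1 0 ^ 2 * v.1 1 - v.1 2 ^ 7 - v.1 0 * v.1 2 ^ 4 - v.1 0 * v.1 2 ^ 5 = 0 := by
  rw [← eval_pp]; exact v.2

theorem cont_g : Continuous fun v : Z => v.1 2 ^ 5 / v.1 0 := by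
  have hv : ∀ i, Continuous fun a : Z => a.1 i :=
    fun i => (continuous_apply i).comp continuous_subtype_val
  rw [continuous_iff_continuousAt]
  intro v
  by_cases hx : v.1 0 = 0
  · have hz : v.1 2 = 0 := by
      have := Z_eq v
      rw [hx] at this
      simpa using this
    unfold ContinuousAt
    beta_reduce
    rw [hx, div_zero, tendsto_zero_iff_norm_tendsto_zero]
    have h1 : Continuous fun a : Z => √(16 * ‖a.1 2‖ ^ 4 + 2 * ‖a.1 1‖ * ‖a.1 2‖ ^ 3) :=
      (((hv 2).norm.pow 4).const_mul 16 |>.add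
        (((hv 1).norm.const_mul 2).mul ((hv 2).norm.pow 3))).sqrt
    have h2 := h1.tendsto v
    simp only [hz, norm_zero, ne_eq, OfNat.ofNat_ne_zero, not_false_eq_true, zero_pow, mul_zero,
      add_zero, Real.sqrt_zero] at h2
    refine squeeze_zero' (Filter.Eventually.of_forall fun _ => norm_nonneg _) ?_ h2
    have h3 : ∀ᶠ a : Z in nhds v, ‖a.1 2‖ < 1 :=
      (hv 2).norm.continuousAt.eventually_lt continuousAt_const (by simp [hz])
    filter_upwards [h3] with a ha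
    exact Real.le_sqrt_of_sq_le (bound _ _ _ (Z_eq a) ha.le)
  · exact ((hv 2).pow 5).continuousAt.div (hv 0).continuousAt hx

theorem contr : ContractibleSpace Z := by
  rw [contractible_iff_id_nullhomotopic]
  let s : unitInterval → ℂ := fun t => ((1 - (t : ℝ) : ℝ) : ℂ)
  let H : unitInterval → V → V := fun t v =>
    ![s t ^ 3 * v 0, s t * v 1 + (s t ^ 2 - s t) * (v 2 ^ 5 / v 0), s t * v 2]
  have hH : ∀ t (v : Z), MvPolynomial.eval (H t v.1) pp = 0 := by
    intro t v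
    have hv := Z_eq v
    rw [eval_pp]
    have e : v.1 0 ^ 2 * (v.1 2 ^ 5 / v.1 0) = v.1 0 * v.1 2 ^ 5 := by
      by_cases hx : v.1 0 = 0
      · simp [hx]
      · field_simp
    simp only [H, Matrix.cons_val_zero, Matrix.cons_val_one, Matrix.cons_val]
    linear_combination s t ^ 7 * hv + (s t ^ 8 - s t ^ 7) * e
  refine ⟨⟨0, by rw [Set.mem_ofPred_eq, eval_pp]; simp⟩,
    ⟨⟨⟨fun x => ⟨H x.1 x.2.1, hH _ _⟩, ?_⟩, ?_, ?_⟩⟩⟩
  · refine Continuous.subtype_mk ?_ _
    have hs : Continuous s := by simp only [s]; fun_prop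
    have hv : ∀ i, Continuous fun a : unitInterval × Z =>
        a.2.1 i := fun i => (continuous_apply i).comp (continuous_subtype_val.comp continuous_snd)
    have hs' := hs.comp (continuous_fst (Y := Z))
    have hg := cont_g.comp (continuous_snd (X := unitInterval))
    refine continuous_pi fun i => ?_
    fin_cases i
    · exact (hs'.pow 3).mul (hv 0)
    · exact (hs'.mul (hv 1)).add (((hs'.pow 2).sub hs').mul hg)
    · exact hs'.mul (hv 2)
  · intro x
    apply Subtype.ext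
    funext i
    fin_cases i <;> simp [H, s]
  · intro x
    apply Subtype.ext
    funext i
    fin_cases i <;> simp [H, s]

end Pool.Agent.H.MP_89b417_ag
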