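import Pool.Agent.H.MP_89b417_ag.Hahn

set_option autoImplicit false
open HahnSeries

namespace Pool.Agent.H.MP_89b417_ag

noncomputable def pp : MvPolynomial (Fin 3) ℂ :=
  MvPolynomial.X 0 ^ 2 * MvPolynomial.X 1 - MvPolynomial.X 2 ^ 7
    - MvPolynomial.X 0 * MvPolynomial.X 2 ^ 4 - MvPolynomial.X 0 * MvPolynomial.X 2 ^ 5

def B (c : ℂ) : Type := MvPolynomial (Fin 3) ℂ ⧸ Ideal.span {pp - MvPolynomial.C c}

noncomputable instance (c : ℂ) : CommRing (B c) :=
  inferInstanceAs (CommRing (MvPolynomial (Fin 3) ℂ ⧸ Ideal.span {pp - MvPolynomial.C c}))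
noncomputable instance (c : ℂ) : Algebra ℂ (B c) :=
  inferInstanceAs (Algebra ℂ (MvPolynomial (Fin 3) ℂ ⧸ Ideal.span {pp - MvPolynomial.C c}))

noncomputable def mk (c : ℂ) : MvPolynomial (Fin 3) ℂ →ₐ[ℂ] B c := Ideal.Quotient.mkₐ ℂ _
noncomputable def bx (c : ℂ) : B c := mk c (MvPolynomial.X 0)
noncomputable def bY (c : ℂ) : B c := mk c (MvPolynomial.X 1)
noncomputable def bz (c : ℂ) : B c := mk c (MvPolynomial.X 2)

theorem rel (c : ℂ) : bx c ^ 2 * bY c =
    bz c ^ 7 + algebraMap ℂ (B c) c + bx c * bz c ^ 4 + bx c * bz c ^ 5 := by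
  have h : mk c (pp - MvPolynomial.C c) = 0 :=
    Ideal.Quotient.eq_zero_iff_mem.mpr (Ideal.subset_span rfl)
  simp only [pp, map_sub, map_mul, map_pow, MvPolynomial.algHom_C] at h
  unfold bx bY bz
  linear_combination h

theorem B_ind {c : ℂ} (P : B c → Prop) (h0 : ∀ a, P (algebraMap ℂ (B c) a))
    (h1 : ∀ f h, P f → P h → P (f + h)) (hx : ∀ f, P f → P (f * bx c))
    (hy : ∀ f, P f → P (f * bY c)) (hz : ∀ f, P f → P (f * bz c)) (f : B c) : P f := by
  obtain ⟨F, rfl⟩ : ∃ F, mk c F = f := Ideal.Quotient.mk_surjective f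
  induction F using MvPolynomial.induction_on with
  | C a => rw [MvPolynomial.algHom_C]; exact h0 a
  | add p q hp hq => rw [map_add]; exact h1 _ _ hp hq
  | mul_X p i hp =>
    rw [map_mul]
    fin_cases i
    · exact hx _ hp
    · exact hy _ hp
    · exact hz _ hp

noncomputable def kx : K := single (g 0 (-1)) 1
noncomputable def kz : K := single (g (-1) 0) 1
noncomputable def kxi : K := single (g 0 1) 1
noncomputable def kzi : K := single (g 1 0) 1
noncomputable def ky (c : ℂ) : K :=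
  kxi ^ 2 * (kz ^ 7 + algebraMap ℂ K c + kx * kz ^ 4 + kx * kz ^ 5)

theorem kx_inv : kx * kxi = 1 := by
  rw [kx, kxi, single_mul_single, g_add]; simp; rfl
theorem kz_inv : kz * kzi = 1 := by
  rw [kz, kzi, single_mul_single, g_add]; simp; rfl

theorem krel (c : ℂ) : kx ^ 2 * ky c = kz ^ 7 + algebraMap ℂ K c + kx * kz ^ 4 + kx * kz ^ 5 := by
  rw [ky, ← mul_assoc, ← mul_pow, kx_inv, one_pow, one_mul]

noncomputable def io (c : ℂ) : B c →ₐ[ℂ] K :=
  Ideal.Quotient.liftₐ _ (MvPolynomial.aeval ![kx, ky c, kz]) (by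
    intro a ha
    obtain ⟨b, rfl⟩ := Ideal.mem_span_singleton'.mp ha
    have : MvPolynomial.aeval ![kx, ky c, kz] (pp - MvPolynomial.C c) = 0 := by
      simp only [pp, map_sub, map_mul, map_pow, MvPolynomial.aeval_X, MvPolynomial.aeval_C]
      simp only [Matrix.cons_val_zero, Matrix.cons_val_one, Matrix.cons_val]
      linear_combination krel c
    rw [map_mul, this, mul_zero])

theorem io_mk (c : ℂ) (F : MvPolynomial (Fin 3) ℂ) :
    io c (mk c F) = MvPolynomial.aeval ![kx, ky c, kz] F := rfl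

@[simp] theorem io_x (c : ℂ) : io c (bx c) = kx := by rw [bx, io_mk]; simp
@[simp] theorem io_y (c : ℂ) : io c (bY c) = ky c := by rw [bY, io_mk]; simp
@[simp] theorem io_z (c : ℂ) : io c (bz c) = kz := by rw [bz, io_mk]; simp

theorem top_x : Top kx (g 0 (-1)) := top_single _ one_ne_zero
theorem top_z : Top kz (g (-1) 0) := top_single _ one_ne_zero
theorem top_xi : Top kxi (g 0 1) := top_single _ one_ne_zero
theorem top_zi : Top kzi (g 1 0) := top_single _ one_ne_zero

theorem ge_alg (a : ℂ) : Ge (algebraMap ℂ K a) 0 := ge_single 0 a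

theorem top_y (c : ℂ) : Top (ky c) (g (-7) 2) := by
  have h1 := (((top_z.pow 7).add (ge_alg c) (by decide)).add (top_x.mul (top_z.pow 4)).2
    (by decide)).add (top_x.mul (top_z.pow 5)).2 (by decide)
  exact (top_xi.pow 2).mul h1

abbrev Ix : Type := ℕ × ℕ × Fin 7

noncomputable def mono (c : ℂ) (s : Ix) : B c := bx c ^ s.1 * bY c ^ s.2.1 * bz c ^ (s.2.2 : ℕ)

def dg (s : Ix) : G := g (-(7 * s.2.1 + (s.2.2 : ℕ))) (2 * s.2.1 - s.1)

theorem dg_inj : Function.Injective dg := by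
  rintro ⟨i, k, j⟩ ⟨i', k', j'⟩ h
  have h1 := congrArg g1 h
  have h2 := congrArg g2 h
  simp only [dg, g1_g, g2_g] at h1 h2
  have := j.2
  have := j'.2
  refine Prod.ext ?_ (Prod.ext ?_ (Fin.ext ?_)) <;> simp only <;> omega

theorem top_mono (c : ℂ) (s : Ix) : Top (io c (mono c s)) (dg s) := by
  have := ((top_x.pow s.1).mul ((top_y c).pow s.2.1)).mul (top_z.pow s.2.2)
  simp only [mono, map_mul, map_pow, io_x, io_y, io_z]
  convert this using 1
  apply g_ext <;> simp only [dg, g1_add, g2_add, g1_nsmul, g2_nsmul, g1_g, g2_g] <;> ring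

theorem span_mono (c : ℂ) (f : B c) : f ∈ Submodule.span ℂ (Set.range (mono c)) := by
  have key : ∀ u : B c, (∀ s, mono c s * u ∈ Submodule.span ℂ (Set.range (mono c))) →
      ∀ f ∈ Submodule.span ℂ (Set.range (mono c)), f * u ∈ Submodule.span ℂ (Set.range (mono c)) := by
    intro u hu f hf
    induction hf using Submodule.span_induction with
    | mem x hx => obtain ⟨s, rfl⟩ := hx; exact hu s
    | zero => simp
    | add x y _ _ hx hy => rw [add_mul]; exact add_mem hx hy
    | smul a x _ hx => rw [smul_mul_assoc]; exact Submodule.smul_mem _ _ hx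
  have hm : ∀ s, mono c s ∈ Submodule.span ℂ (Set.range (mono c)) :=
    fun s => Submodule.subset_span ⟨s, rfl⟩
  induction f using B_ind with
  | h0 a =>
    have : algebraMap ℂ (B c) a = a • mono c (0, 0, 0) := by simp [mono, Algebra.smul_def]
    rw [this]; exact Submodule.smul_mem _ _ (hm _)
  | h1 f h hf hh => exact add_mem hf hh
  | hx f hf =>
    refine key _ (fun s => ?_) f hf
    convert hm (s.1 + 1, s.2) using 1
    simp only [mono]; ring
  | hy f hf =>
    refine key _ (fun s => ?_) f hf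
    convert hm (s.1, s.2.1 + 1, s.2.2) using 1
    simp only [mono]; ring
  | hz f hf =>
    refine key _ (fun s => ?_) f hf
    obtain ⟨i, k, j⟩ := s
    by_cases hj : (j : ℕ) + 1 < 7
    · convert hm (i, k, ⟨j + 1, hj⟩) using 1
      simp only [mono]; ring
    · have hj6 : (j : ℕ) = 6 := by have := j.2; omega
      have : mono c (i, k, j) * bz c = mono c (i + 2, k + 1, 0) - c • mono c (i, k, 0)
          - mono c (i + 1, k, 4) - mono c (i + 1, k, 5) := by
        simp only [mono, hj6, Algebra.smul_def]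
        have e4 : ((4 : Fin 7) : ℕ) = 4 := rfl
        have e5 : ((5 : Fin 7) : ℕ) = 5 := rfl
        have e0 : ((0 : Fin 7) : ℕ) = 0 := rfl
        rw [e0, e4, e5]
        linear_combination (-(bx c ^ i * bY c ^ k)) * rel c
      rw [this]
      exact sub_mem (sub_mem (sub_mem (hm _) (Submodule.smul_mem _ _ (hm _))) (hm _)) (hm _)

theorem nf {c : ℂ} (f : B c) (hf : f ≠ 0) : ∃ w : Ix →₀ ℂ, f = w.sum (fun s a => a • mono c s) ∧
    ∃ s ∈ w.support, Top (io c f) (dg s) ∧ ∀ t ∈ w.support, dg s ≤ dg t := by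
  obtain ⟨w, hw⟩ := Finsupp.mem_span_range_iff_exists_finsupp.mp (span_mono c f)
  refine ⟨w, hw.symm, ?_⟩
  have hw0 : w ≠ 0 := by
    rintro rfl
    exact hf (by rw [← hw]; simp)
  have := top_sum (fun s => io c (mono c s)) dg dg_inj (top_mono c) w hw0
  rw [← hw, map_finsuppSum]
  simpa only [map_smul] using this

theorem io_inj (c : ℂ) : Function.Injective (io c) := by
  rw [injective_iff_map_eq_zero]
  intro f hf
  by_contra h
  obtain ⟨w, -, s, -, h1, -⟩ := nf f h
  exact h1.ne_zero hf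

theorem top_mem {c : ℂ} {f : B c} {m : G} (h : Top (io c f) m) : ∃ s, m = dg s := by
  have hf : f ≠ 0 := by
    rintro rfl
    exact h.ne_zero (map_zero _)
  obtain ⟨w, -, s, -, h1, -⟩ := nf f hf
  exact ⟨s, h.unique h1⟩

instance (c : ℂ) : IsDomain (B c) := (io_inj c).isDomain (io c)

theorem pp_irr : Irreducible pp := by
  have h : IsDomain (B 0) := inferInstance
  have h1 := (Ideal.Quotient.isDomain_iff_prime _).mp h
  rw [map_zero, sub_zero] at h1
  have h0 : pp ≠ 0 := by
    intro h0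
    have := congrArg (MvPolynomial.eval ![0, 0, 1]) h0
    simp [pp] at this
  exact ((Ideal.span_singleton_prime h0).mp h1).irreducible

/-- elements of small `z`-degree are polynomials in `x, z` -/
theorem small {c : ℂ} (f : B c) (n : ℕ) (hn : n < 7) (h : ∀ m, Top (io c f) m → -(n : ℤ) ≤ g1 m) :
    ∃ P : ℕ → Polynomial ℂ, f = ∑ j ∈ Finset.range (n + 1),
      Polynomial.aeval (bx c) (P j) * bz c ^ j := by
  let V : Submodule ℂ (B c) :=
    { carrier := {f | ∃ P : ℕ → Polynomial ℂ, f = ∑ j ∈ Finset.range (n + 1),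
        Polynomial.aeval (bx c) (P j) * bz c ^ j}
      add_mem' := by
        rintro _ _ ⟨P, rfl⟩ ⟨Q, rfl⟩
        exact ⟨P + Q, by simp [add_mul, Finset.sum_add_distrib]⟩
      zero_mem' := ⟨0, by simp⟩
      smul_mem' := by
        rintro a _ ⟨P, rfl⟩
        exact ⟨a • P, by simp [Finset.smul_sum]⟩ }
  change f ∈ V
  by_cases hf : f = 0
  · rw [hf]; exact V.zero_mem
  obtain ⟨w, hw, s, -, h1, h2⟩ := nf f hf
  rw [hw]
  refine Submodule.sum_mem _ fun t ht => V.smul_mem _ ?_
  have h3 := h _ h1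
  have h4 := g_le.mp (h2 t ht)
  obtain ⟨i, k, j⟩ := t
  have h5 : -(n : ℤ) ≤ g1 (dg (i, k, j)) := by omega
  simp only [dg, g1_g] at h5
  have hk : k = 0 := by omega
  have hj : (j : ℕ) ∈ Finset.range (n + 1) := by rw [Finset.mem_range]; omega
  refine ⟨Pi.single (j : ℕ) (Polynomial.X ^ i), ?_⟩
  rw [Finset.sum_eq_single (j : ℕ)]
  · simp [mono, hk]
  · intro b _ hb
    simp [Pi.single_eq_of_ne hb]
  · intro h; exact absurd hj h

theorem small_y {c : ℂ} (f : B c) (h : Top (io c f) (g (-7) 2)) :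
    ∃ (κ : ℂ) (P : ℕ → Polynomial ℂ), κ ≠ 0 ∧ f = κ • bY c + ∑ j ∈ Finset.range 7,
      Polynomial.aeval (bx c) (P j) * bz c ^ j := by
  let κ := (io c f).coeff (g (-7) 2) / (ky c).coeff (g (-7) 2)
  obtain ⟨P, hP⟩ := small (f - κ • bY c) 6 (by norm_num) (by
    intro m hm
    obtain ⟨⟨i, k, j⟩, rfl⟩ := top_mem hm
    have h1 : Ge (io c (f - κ • bY c)) (g (-7) 2) := by
      intro n hn
      rw [map_sub, map_smul, io_y, coeff_sub, coeff_smul, h.2 n hn, (top_y c).2 n hn]; simp
    have h2 : (io c (f - κ • bY c)).coeff (g (-7) 2) = 0 := by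
      rw [map_sub, map_smul, io_y, coeff_sub, coeff_smul, smul_eq_mul,
        div_mul_cancel₀ _ (top_y c).1, sub_self]
    have h3 := hm.le h1
    have h4 : g (-7) 2 ≠ dg (i, k, j) := fun e => hm.1 (e ▸ h2)
    have h5 := g_lt.mp (lt_of_le_of_ne h3 h4)
    simp only [dg, g1_g, g2_g] at h5 ⊢
    have := j.2
    omega)
  exact ⟨κ, P, div_ne_zero h.1 (top_y c).1, by rw [← hP]; ring⟩

end Pool.Agent.H.MP_89b417_ag
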